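import Pool.Agent.P.MP_fb3fae_co.Few4

open Pool.Agent.P.MP_fb3fae_co in
/-- The least number of faces of a convex polyhedron all of whose faces are congruent to the
triangle `A B C` is 4 if the triangle is acute, otherwise 6 if it is isosceles with apex angle
below `2π/3`, and otherwise 8. -/
theorem Pool.Agent.Results.MP_fb3fae_co.FewestFaces.result
    (A B C : EuclideanSpace ℝ (Fin 3)) (hT : AffineIndependent ℝ ![A, B, C]) :
    IsLeast {n : ℕ | ∃ P : Set (EuclideanSpace ℝ (Fin 3)), IsConvexPolyhedron P ∧
        (∀ F, IsTwoFace P F → ∃ φ : EuclideanSpace ℝ (Fin 3) ≃ᵢ EuclideanSpace ℝ (Fin 3),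
          F = φ '' convexHull ℝ {A, B, C}) ∧
        {F | IsTwoFace P F}.ncard = n}
      (if EuclideanGeometry.angle A B C < Real.pi / 2 ∧ EuclideanGeometry.angle B C A < Real.pi / 2 ∧
          EuclideanGeometry.angle C A B < Real.pi / 2 then 4
        else if (dist A B = dist B C ∧ EuclideanGeometry.angle A B C < 2 * Real.pi / 3) ∨
          (dist B C = dist C A ∧ EuclideanGeometry.angle B C A < 2 * Real.pi / 3) ∨
          (dist C A = dist A B ∧ EuclideanGeometry.angle C A B < 2 * Real.pi / 3) then 6
        else 8) :=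
  few_main A B C hT
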