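import Pool.Agent.P.MP_fb3fae_co.Main3

open Pool.Agent.P.MP_fb3fae_co in
/-- A nondegenerate triangle `A B C` is, without reflections, the common face of a convex
polyhedron if and only if it is isosceles or acute. -/
theorem Pool.Agent.Results.MP_fb3fae_co.Q2IsoscelesOrAcute.result
    (A B C : EuclideanSpace ℝ (Fin 3)) (hT : AffineIndependent ℝ ![A, B, C]) :
    (∃ P : Set (EuclideanSpace ℝ (Fin 3)), IsConvexPolyhedron P ∧
      ∀ F, IsTwoFace P F → IsOutwardCopy P F A B C) ↔
    ((dist A B = dist B C ∨ dist B C = dist C A ∨ dist C A = dist A B) ∨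
      (EuclideanGeometry.angle A B C < Real.pi / 2 ∧ EuclideanGeometry.angle B C A < Real.pi / 2 ∧
        EuclideanGeometry.angle C A B < Real.pi / 2)) :=
  main3 A B C hT
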